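import Pool.Agent.H88.L1.Cls
import Pool.Agent.H88.L1.Ind

/-!
# [H88 L1 LCB] MP_b39724_nt, LowerBound v6: the class `LC` of `H51.K4`

`lc_base1`: `LC p L` gives `BASE1 L N`, `L` the union of the `N` classes of `c`.
-/

set_option autoImplicit false

open scoped NumberField
open IsDedekindDomain H38.ML
open scoped Classical

noncomputable section

namespace H88.L1

open H63.MA H38.BB H38.BG H77.PC3 H77.PLF H51.HD H51.HC H51.F3 H51.F4 H88.LH H35.SN H51.K2 H51.K4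

theorem lc_base1 (hA : ∀ p : ℕ, p.Prime → APm4 p) (hU : ∀ p : ℕ, p.Prime → APu3 p) (hst : STP)
    {p : ℕ} (hp : p.Prime) {G : Type} [Group G] [Finite G] {L : Set G} (h : H51.K4.LC p L)
    (N : ℕ) (hN : 1 ≤ N) (c : CL p N G) (hL : L = {x | ∃ i, IsConj x (c.g i)})
    (hpw : ∀ x ∈ L, ∀ j : ℕ, ¬ p ∣ j → x ^ j ∈ L) : BASE1 L N := by
  obtain ⟨D, gen, mem, com, ind, h⟩ := h
  obtain ⟨Y, hYD, hYC⟩ := H88.LB.loc_LY L c hL hpw D gen mem com ind
  subst hYD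
  rw [← hYC]
  refine lh_base1 Y hp ?_
  obtain ⟨h1, h2⟩ := H88.LB.loc_cM Y
  refine sc_fth1 hA hU hst hp h N hN Y.cM ?_ h2
  rw [← h1, hYC]

end H88.L1
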