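import Pool.Agent.H88.L1.Fth
import Pool.Agent.H88.LB.Cls
import Pool.Agent.H51.K4.Spec

/-!
# [H88 L1 CLS] MP_b39724_nt, LowerBound v6: the class `SC` of `H51.K4`

* `ustep_lf1`: the step `UStep` gives `LF1` (by units). `ustep_typ`, `ustep_cl`: the classes. `fth1_ustep`: one step.
* `sc_fth1`: `SC p D L` gives `FTH1 D c`, `L` the union of the classes of `c`.
-/

set_option autoImplicit false

open scoped NumberField
open IsDedekindDomain H38.ML
open scoped Classical

noncomputable section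

namespace H88.L1

open H63.MA H38.BB H38.BG H77.PC3 H77.PLF H51.HD H51.HC H51.F3 H51.F4 H88.LH H35.SN H51.K2 H51.K4

/-- the step `UStep` lifts homomorphisms, over fields `K ≥ K₀(k)` -/
theorem ustep_lf1 {p : ℕ} {M Mb : Type} [Group M] [Finite M] [Group Mb] {π : M →* Mb}
    (h : UStep p π) : ∃ s : Mb →* M, (∀ x, π (s x) = x) ∧ LF1 π s := by
  obtain ⟨s, hs⟩ := h.split
  refine ⟨s, hs, H71.KA.lf1_step π h.surjective ?_ s hs
    ((Subgroup.centralizer (π.ker : Set M)).comap s) ?_ ?_⟩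
  · intro a b ha hb
    have := h.comm
    have h1 := mul_comm' (⟨a, ha⟩ : π.ker) ⟨b, hb⟩
    exact congrArg Subtype.val h1
  · intro z hz a ha
    exact (Subgroup.mem_centralizer_iff.1 hz a ha).symm
  · rw [Subgroup.index_comap]
    have h1 : (Subgroup.centralizer (π.ker : Set M)).relIndex s.range ∣
        p * (Subgroup.centralizer (π.ker : Set M)).index :=
      Dvd.dvd.mul_left (Subgroup.relIndex_dvd_index_of_normal _ _) _
    exact (Nat.Coprime.coprime_dvd_right h1 h.coprime).symm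

/-- conjugate images: conjugate elements -/
theorem ustep_typ {p : ℕ} {M Mb : Type} [Group M] [Finite M] [Group Mb] {π : M →* Mb}
    (h : UStep p π) {c y : M} (hc : c ^ p = 1) (hy : y ^ p = 1) (hxy : IsConj (π y) (π c)) :
    IsConj y c := by
  obtain ⟨gb, hgb⟩ := isConj_iff.1 hxy
  obtain ⟨g, rfl⟩ := h.surjective gb
  have hπ : π (g * y * g⁻¹) = π c := by
    rw [map_mul, map_mul, map_inv, hgb]
  have hyp : (g * y * g⁻¹) ^ p = 1 := by
    rw [conj_pow, hy, mul_one, mul_inv_cancel]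
  have hyy : IsConj y (g * y * g⁻¹) := isConj_iff.2 ⟨g, rfl⟩
  have ht : g * y * g⁻¹ * c⁻¹ ∈ π.ker := by
    rw [MonoidHom.mem_ker, map_mul, map_inv, hπ, mul_inv_cancel]
  obtain ⟨s, -, e⟩ := H71.KA.zas π.ker (fun x hx y hy => by
      have := h.comm
      exact congrArg Subtype.val (mul_comm' (⟨x, hx⟩ : π.ker) ⟨y, hy⟩))
    (a := c) (fun x hx => (inferInstance : π.ker.Normal).conj_mem x hx c) ht (q := p)
    (by rw [inv_mul_cancel_right, hyp]) hc (Nat.Coprime.coprime_mul_right_right h.coprime).symm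
  rw [inv_mul_cancel_right] at e
  rw [e] at hyy
  exact hyy.trans (isConj_iff.2 ⟨s, rfl⟩ : IsConj c _).symm

/-- the images of the classes -/
theorem ustep_cl {p N : ℕ} {M Mb : Type} [Group M] [Finite M] [Group Mb] {π : M →* Mb}
    (h : UStep p π) (c : CL p N M) : ∃ cb : CL p N Mb, ∀ i, cb.g i = π (c.g i) := by
  refine ⟨⟨fun i => π (c.g i), fun i => by rw [← map_pow, c.pow, map_one], fun i hi => ?_,
    fun i j hij => ?_⟩, fun i => rfl⟩
  · have hk : c.g i ∈ π.ker := hi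
    have h1 : orderOf (c.g i) ∣ Nat.card π.ker := by
      have h3 := orderOf_dvd_natCard (⟨c.g i, hk⟩ : π.ker)
      rwa [Subgroup.orderOf_mk] at h3
    have h2 : orderOf (c.g i) ∣ p := orderOf_dvd_of_pow_eq_one (c.pow i)
    have h3 : Nat.gcd (Nat.card π.ker) p = 1 := Nat.Coprime.coprime_mul_right_right h.coprime
    have h4 := Nat.dvd_gcd h1 h2
    rw [h3] at h4
    exact c.ne i (orderOf_eq_one_iff.1 (Nat.dvd_one.1 h4))
  · exact c.uni i j (ustep_typ h (c.pow j) (c.pow i) hij)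

/-- one step -/
theorem fth1_ustep {p N : ℕ} {M Mb : Type} [Group M] [Finite M]
    [Group Mb] {π : M →* Mb} (S : UStep p π) (D : Subgroup M) [D.Normal] (Db : Subgroup Mb)
    [Db.Normal] (hDb : Db = D.map π) (hD : π.ker ≤ D) (c : CL p N M) (cb : CL p N Mb)
    (hcb : ∀ i, cb.g i = π (c.g i)) (h : FTH1 Db cb) : FTH1 D c := by
  obtain ⟨s, hs, hl⟩ := ustep_lf1 S
  exact fth1_lf1 hs hl S.surjective D Db hDb hD c cb hcb
    (fun i y hy hyc => ustep_typ S (c.pow i) hy hyc) h

theorem sc_fth1 (hA : ∀ p : ℕ, p.Prime → APm4 p) (hU : ∀ p : ℕ, p.Prime → APu3 p) (hst : STP)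
    {p : ℕ} (hp : p.Prime) {M : Type} [Group M] {D : Subgroup M} {L : Set M}
    (h : H51.K4.SC p D L) :
    ∀ [Finite M] [D.Normal] (N : ℕ) (_ : 1 ≤ N) (c : CL p N M)
      (_ : L = {x | ∃ i, IsConj x (c.g i)})
      (_ : D = Subgroup.normalClosure (Set.range c.g)), FTH1 D c := by
  induction h with
  | base D L k hk hP =>
    intro _ _ N hN c _ hD
    refine fth_fth1 D c (fth_hyp hA hU hp hN D c (fun x hx => ?_) k hk hD)
    obtain ⟨j, hj⟩ := hP ⟨x, hx⟩
    exact ⟨j, congrArg Subtype.val hj⟩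
  | @step M Mb _ _ D L π hπ hker h ih =>
    intro _ _ N hN c hL hD
    obtain ⟨l, hS, hlp⟩ := H88.LB.step_STEP hπ
    have hty : l ≠ p ∨ ∀ i, ∃ x ∈ π.ker, c.g i * x * (c.g i)⁻¹ ≠ x := by
      by_cases hl : l = p
      · refine Or.inr fun i => hlp hl _ ?_
        rw [hL]
        exact ⟨i, IsConj.refl _⟩
      · exact Or.inl hl
    obtain ⟨cb, hcb⟩ := clb hS hp c hty
    have : Finite Mb := Finite.of_surjective π hS.sur
    have hDn : (D.map π).Normal := Subgroup.Normal.map inferInstance π hS.sur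
    refine fth1_step hst hp hS D (D.map π) rfl hker c cb hcb hty ?_
    refine ih N hN cb (H88.LB.img_cls hS.sur c cb hcb hL) ?_
    rw [hD, Subgroup.map_normalClosure _ _ hS.sur]
    congr 1
    ext y
    constructor
    · rintro ⟨_, ⟨i, rfl⟩, rfl⟩
      exact ⟨i, hcb i⟩
    · rintro ⟨i, rfl⟩
      exact ⟨_, ⟨i, rfl⟩, (hcb i).symm⟩
  | @ustep M Mb _ _ D L π hπ hker h ih =>
    intro _ _ N hN c hL hD
    obtain ⟨cb, hcb⟩ := ustep_cl hπ c
    have : Finite Mb := Finite.of_surjective π hπ.surjective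
    have hDn : (D.map π).Normal := Subgroup.Normal.map inferInstance π hπ.surjective
    refine fth1_ustep hπ D (D.map π) rfl hker c cb hcb ?_
    refine ih N hN cb (H88.LB.img_cls hπ.surjective c cb hcb hL) ?_
    rw [hD, Subgroup.map_normalClosure _ _ hπ.surjective]
    congr 1
    ext y
    constructor
    · rintro ⟨_, ⟨i, rfl⟩, rfl⟩
      exact ⟨i, hcb i⟩
    · rintro ⟨i, rfl⟩
      exact ⟨_, ⟨i, rfl⟩, (hcb i).symm⟩

end H88.L1
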