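import Pool.Agent.H35.SN.Fs
import Pool.Agent.H51.K2.B1
import Pool.Agent.H71.KA.Lf1
import Pool.Agent.H71.KA.Zas

/-!
# [H88 L1 FTH] MP_b39724_nt, LowerBound v6: the statement `FTH1` over `F` (fields `F ≥ K₁(k)`, at most `k` split places)

* `FTH1`: as `H88.LH.FTH`, for at most `k` split places, over fields `F ≥ K₁`, where `m` and `K₁` depend on `k`. `fth_fth1`: `FTH` implies `FTH1`.
* `fam_lift`: the lifts. `fth1_lift`, `fth1_step`: the step `LFT` (`STEP`). `fth1_lf1`: the step `LF1` (by units).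
-/

set_option autoImplicit false

open scoped NumberField
open IsDedekindDomain H38.ML
open scoped Classical IsMulCommutative

noncomputable section

namespace H88.L1

open H63.MA H88.LH H77.PC3 H35.SN H51.K2

/-- the statement over `F`, for at most `k` split places over the fields `F ≥ K₁(k)` -/
def FTH1 {p N : ℕ} {M : Type} [Group M] (D : Subgroup M) [D.Normal] (c : CL p N M) : Prop :=
  ∀ k : ℕ, ∃ m : ℕ, 0 < m ∧ ∃ K₁ : IntermediateField ℚ QBar, NumberField K₁ ∧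
    ∀ (F : IntermediateField ℚ QBar) (_ : NumberField F) (_ : K₁ ≤ F)
    (_ : ∃ z : F, IsPrimitiveRoot z m) (Θ : Gal(QBar/F) →* DM D) (_ : Function.Surjective Θ)
    (_ : FT Θ) (Q : DP F QBar) (S₁ S' : Finset (Pl F)) (_ : S'.card ≤ k)
    (_ : ∀ w ∈ S', ∀ σ ∈ dec (K := F) (Q.P w), Θ σ = 1) (_ : ∀ w ∈ S', ¬ Above m w),
    ∃ S0 : Finset (Pl F), S₁ ⊆ S0 ∧ S' ⊆ S0 ∧
      ∀ (b : ℕ) (β : Type) (bl : Pl F → β) (SK : Set β)
        (_ : ∀ w, {w' : Pl F | bl w' = bl w ∧ (nm w').Prime}.Finite ∧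
          {w' : Pl F | bl w' = bl w ∧ (nm w').Prime}.ncard ≤ b)
        (_ : ∀ w w' : Pl F, bl w' = bl w → (nm w).Prime → (nm w').Prime → nm w' = nm w)
        (_ : {w : Pl F | bl w ∈ SK}.Finite),
        ∃ C Y₀ : ℝ, 0 < C ∧ ∀ Y : ℝ, Y₀ ≤ Y →
          FamF Q S0 S' D c bl SK ((SemidirectProduct.rightHom : DM D →* M).comp Θ) C Y

theorem fth_fth1 {p N : ℕ} {M : Type} [Group M] (D : Subgroup M) [D.Normal] (c : CL p N M)
    (h : FTH D c) : FTH1 D c := by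
  intro k
  obtain ⟨m, hm, h⟩ := h
  refine ⟨m, hm, ⊥, NumberField.of_module_finite ℚ _, ?_⟩
  intro F hF _ hz Θ hΘ hft Q S₁ S' _ hS' hal
  exact h F hz Θ hΘ hft Q S₁ S' hS' hal

/-- the homomorphism to `Db ⋊ Mb` -/
theorem dm_map {M Mb : Type} [Group M] [Group Mb] {π : M →* Mb} (hsur : Function.Surjective π)
    (D : Subgroup M) [D.Normal] (Db : Subgroup Mb) [Db.Normal] (hDb : Db = D.map π) :
    ∃ pm : DM D →* DM Db, Function.Surjective pm ∧ ∀ x, (pm x).right = π x.right := by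
  obtain ⟨f₁, hf₁⟩ : ∃ f₁ : D →* Db, ∀ d, (f₁ d : Mb) = π d := by
    refine ⟨(π.comp D.subtype).codRestrict Db fun d => ?_, fun d => rfl⟩
    rw [hDb]
    exact ⟨d, d.2, rfl⟩
  have hf₁s : Function.Surjective f₁ := by
    rintro ⟨y, hy⟩
    have h1 := hy
    rw [hDb] at h1
    obtain ⟨d, hd, hdy⟩ := h1
    exact ⟨⟨d, hd⟩, Subtype.ext ((hf₁ _).trans hdy)⟩
  obtain ⟨pm, hpm1, hpm2⟩ : ∃ pm : DM D →* DM Db, (∀ x, (pm x).left = f₁ x.left) ∧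
      ∀ x, (pm x).right = π x.right := by
    refine ⟨SemidirectProduct.map f₁ π fun g => ?_, fun x => rfl, fun x => rfl⟩
    refine MonoidHom.ext fun d => Subtype.ext ?_
    show (f₁ ((MulAut.conjNormal : M →* MulAut D) g d) : Mb) =
      (((MulAut.conjNormal : Mb →* MulAut Db) (π g) (f₁ d) : Db) : Mb)
    rw [hf₁, MulAut.conjNormal_apply, MulAut.conjNormal_apply, hf₁, map_mul, map_mul, map_inv]
  refine ⟨pm, ?_, hpm2⟩
  rintro ⟨a, b⟩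
  obtain ⟨a, rfl⟩ := hf₁s a
  obtain ⟨b, rfl⟩ := hsur b
  exact ⟨⟨a, b⟩, SemidirectProduct.ext (hpm1 _) (hpm2 _)⟩

/-- the lifts of a family -/
theorem fam_lift {p N : ℕ} {M Mb : Type} [Group M] [Group Mb] {π : M →* Mb}
    (D : Subgroup M) (Db : Subgroup Mb) (hDb : Db = D.map π) (hD : π.ker ≤ D)
    (c : CL p N M) (cb : CL p N Mb) (hcb : ∀ i, cb.g i = π (c.g i))
    (hty : ∀ i y, y ^ p = 1 → IsConj (π y) (π (c.g i)) → IsConj y (c.g i))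
    {F : IntermediateField ℚ QBar} [NumberField F] {Q : DP F QBar} {S0 Sb S' : Finset (Pl F)}
    {β : Type} {bl : Pl F → β} {SK : Set β} {φ₀ : Gal(QBar/F) →* M} {φb : Gal(QBar/F) →* Mb}
    (hφ : ∀ σ, π (φ₀ σ) = φb σ) {C Y : ℝ}
    (hl : ∀ θb : Gal(QBar/F) →* Mb, Function.Surjective θb → FT θb →
      (∀ v ∈ Sb, ∀ σ ∈ dec (K := F) (Q.P v), θb σ = 1) →
      ∃ (θ : Gal(QBar/F) →* M) (s : Mb →* M), (∀ x, π (s x) = x) ∧ FT θ ∧
        Function.Surjective θ ∧ (∀ σ, π (θ σ) = θb σ) ∧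
        (∀ v ∈ S', ∀ σ ∈ dec (K := F) (Q.P v), θ σ = 1) ∧
        ∀ v, v ∉ S0 → ∃ m ∈ π.ker, ∀ τ ∈ (Q.P v).inertia Gal(QBar/F),
          θ τ = m * s (θb τ) * m⁻¹)
    (h : FamF Q S0 Sb Db cb bl SK φb C Y) : FamF Q S0 S' D c bl SK φ₀ C Y := by
  obtain ⟨Rs, hRs, h5⟩ := h
  have hex : ∀ θb : Gal(QBar/F) →* Mb, ∃ θ : Gal(QBar/F) →* M, θb ∈ Rs →
      ∃ s : Mb →* M, (∀ x, π (s x) = x) ∧ FT θ ∧
      Function.Surjective θ ∧ (∀ σ, π (θ σ) = θb σ) ∧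
      (∀ v ∈ S', ∀ σ ∈ dec (K := F) (Q.P v), θ σ = 1) ∧
      ∀ v, v ∉ S0 → ∃ m ∈ π.ker, ∀ τ ∈ (Q.P v).inertia Gal(QBar/F),
        θ τ = m * s (θb τ) * m⁻¹ := by
    intro θb
    by_cases hθb : θb ∈ Rs
    · obtain ⟨g1, g2, g3, g4, g5⟩ := h5 θb hθb
      obtain ⟨θ, s, q1, q2⟩ := hl θb g2 g1 g4
      exact ⟨θ, fun _ => ⟨s, q1, q2⟩⟩
    · exact ⟨1, fun h => absurd h hθb⟩
  choose lf hlf using hex
  have hinj : Set.InjOn lf (Rs : Set (Gal(QBar/F) →* Mb)) := by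
    intro θ₁ h6 θ₂ h7 he
    obtain ⟨s₁, -, -, -, q1, -⟩ := hlf θ₁ h6
    obtain ⟨s₂, -, -, -, q2, -⟩ := hlf θ₂ h7
    refine MonoidHom.ext fun σ => ?_
    rw [← q1 σ, ← q2 σ, he]
  refine ⟨Rs.image lf, ?_, ?_⟩
  · rw [Finset.card_image_of_injOn hinj]
    exact hRs
  intro θ hθ
  obtain ⟨θb, hθb, rfl⟩ := Finset.mem_image.1 hθ
  obtain ⟨s, q1, q2, q3, q4, q5, hin⟩ := hlf θb hθb
  obtain ⟨g1, g2, g3, g4, T, t1, t2, t3, t4, t5⟩ := h5 θb hθb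
  have hlab : ∀ w, w ∉ S0 → ∀ i : Fin N, (∃ x : Mb, IsConj x (cb.g i) ∧
      ((Q.P w).inertia Gal(QBar/F)).map θb = Subgroup.zpowers x) →
      ∃ x : M, IsConj x (c.g i) ∧
        ((Q.P w).inertia Gal(QBar/F)).map (lf θb) = Subgroup.zpowers x := by
    rintro w hw i ⟨x, hx, hx2⟩
    obtain ⟨m, hm, h6⟩ := hin w hw
    refine ⟨m * s x * m⁻¹, ?_, map_rel h6 hx2⟩
    have hxp : x ^ p = 1 := by
      obtain ⟨g, rfl⟩ := isConj_iff.1 hx.symm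
      rw [conj_pow, cb.pow, mul_one, mul_inv_cancel]
    refine hty i _ ?_ ?_
    · rw [conj_pow, ← map_pow, hxp, map_one, mul_one, mul_inv_cancel]
    · have h8 : π (m * s x * m⁻¹) = x := by
        rw [map_mul, map_mul, map_inv, MonoidHom.mem_ker.1 hm, q1, one_mul, inv_one, mul_one]
      rw [h8, ← hcb]
      exact hx
  refine ⟨q2, q3, fun σ => ?_, q5, T, t1, t2, fun w hw => ?_, fun w hw hw2 τ hτ => ?_, fun i => ?_⟩
  · have h6 := g3 σ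
    have hle : ∀ y ∈ Db, y ∈ D.map π := fun y hy => by rwa [hDb] at hy
    obtain ⟨d, hd, hd2⟩ := hle _ h6
    have h7 : π d = π (lf θb σ * (φ₀ σ)⁻¹) := by
      rw [hd2, map_mul, map_inv, q4, hφ]
    have h8 : lf θb σ * (φ₀ σ)⁻¹ * d⁻¹ ∈ π.ker := by
      rw [MonoidHom.mem_ker, map_mul, map_inv, ← h7, mul_inv_cancel]
    have h9 := D.mul_mem (hD h8) hd
    rwa [inv_mul_cancel_right] at h9
  · obtain ⟨i, x, hx, hx2⟩ := t3 w hw
    obtain ⟨x', hx', hx'2⟩ := hlab w (t1 w hw).1 i ⟨x, hx, hx2⟩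
    exact ⟨i, x', hx', hx'2⟩
  · obtain ⟨m, hm, h6⟩ := hin w hw
    rw [h6 τ hτ, t4 w hw hw2 τ hτ, map_one, mul_one, mul_inv_cancel]
  · obtain ⟨w, hw, hw2, hw3, hw4⟩ := t5 i
    exact ⟨w, hw, hw2, hw3, hlab w (t1 w hw).1 i hw4⟩

theorem fth1_lift {p l N : ℕ} (hl0 : 0 < l) {M Mb : Type} [Group M] [Finite M]
    [Group Mb] {π : M →* Mb} (S : LFT l π) (hsur : Function.Surjective π) (D : Subgroup M)
    [D.Normal] (Db : Subgroup Mb) [Db.Normal] (hDb : Db = D.map π) (hD : π.ker ≤ D)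
    (c : CL p N M) (cb : CL p N Mb) (hcb : ∀ i, cb.g i = π (c.g i))
    (hty : ∀ i y, y ^ p = 1 → IsConj (π y) (π (c.g i)) → IsConj y (c.g i)) (h : FTH1 Db cb) :
    FTH1 D c := by
  intro k
  have hfb : Finite Mb := Finite.of_surjective π hsur
  obtain ⟨mb, hmb, K₁, hK₁, h⟩ := h (k + (l * (Nat.card Mb * (k + 1)) + 1))
  refine ⟨mb * l, Nat.mul_pos hmb hl0, K₁, hK₁, ?_⟩
  rintro F hF hKF ⟨z, hz⟩ Θ hΘ hft Q S₁ S' hk hS' hal
  obtain ⟨pm, hpms, hpm2⟩ := dm_map hsur D Db hDb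
  obtain ⟨Θb, hΘb⟩ : ∃ Θb : Gal(QBar/F) →* DM Db, Θb = pm.comp Θ := ⟨_, rfl⟩
  -- auxiliary places
  obtain ⟨Sl, hSl⟩ : ∃ Sl : Finset (Pl F), ∀ w, w ∈ Sl ↔ Above (mb * l) w :=
    ⟨(above_fin (Nat.mul_pos hmb hl0)).toFinset, fun w => by rw [Set.Finite.mem_toFinset]; rfl⟩
  obtain ⟨Sa, hSac, hSad, hSas⟩ := spx Θ hft (S₁ ∪ S' ∪ Sl)
    (l * (Nat.card Mb * (S'.card + 1)) + 1)
  have hSaΘ : ∀ w ∈ Sa, ∀ σ ∈ dec (K := F) (Q.P w), Θ σ = 1 := fun w hw =>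
    hSas w hw _ (Q.prime w) (Q.under w)
  have hdis := Finset.disjoint_left.1 hSad
  have hall : ∀ w ∈ S' ∪ Sa, ∀ σ ∈ dec (K := F) (Q.P w), Θ σ = 1 := by
    intro w hw
    rcases Finset.mem_union.1 hw with hw | hw
    · exact hS' w hw
    · exact hSaΘ w hw
  have hnot : ∀ w ∈ S' ∪ Sa, ¬ Above (mb * l) w := by
    intro w hw
    rcases Finset.mem_union.1 hw with hw | hw
    · exact hal w hw
    · exact fun h1 => hdis hw (Finset.mem_union_right _ ((hSl w).2 h1))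
  have hz1 : ∃ z : F, IsPrimitiveRoot z mb :=
    ⟨z ^ l, hz.pow (Nat.mul_pos hmb hl0) (Nat.mul_comm _ _)⟩
  have hz2 : ∃ z : F, IsPrimitiveRoot z l := ⟨z ^ mb, hz.pow (Nat.mul_pos hmb hl0) rfl⟩
  have hcard : (S' ∪ Sa).card ≤ k + (l * (Nat.card Mb * (k + 1)) + 1) := by
    refine (Finset.card_union_le _ _).trans (Nat.add_le_add hk ?_)
    rw [hSac]
    exact Nat.succ_le_succ (Nat.mul_le_mul_left _ (Nat.mul_le_mul_left _ (Nat.succ_le_succ hk)))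
  obtain ⟨S0, h1, h2, h3⟩ := h F hF hKF hz1 Θb (by rw [hΘb]; exact hpms.comp hΘ)
    (by rw [hΘb]; exact ft_comp _ _ hft) Q (S₁ ∪ Sl) (S' ∪ Sa) hcard
    (fun w hw σ hσ => by rw [hΘb, MonoidHom.comp_apply, hall w hw σ hσ, map_one])
    (fun w hw => (above_mul (hnot w hw)).1)
  refine ⟨S0, Finset.union_subset_left h1, Finset.union_subset_left h2, ?_⟩
  intro b β bl SK hb1 hb2 hb3
  obtain ⟨C, Y₀, hC, h4⟩ := h3 b β bl SK hb1 hb2 hb3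
  refine ⟨C, Y₀, hC, fun Y hY => ?_⟩
  refine fam_lift D Db hDb hD c cb hcb hty (fun σ => ?_) (fun θb hs hf hd => ?_) (h4 Y hY)
  · rw [hΘb]
    exact (hpm2 _).symm
  obtain ⟨θ, s, q1, q2, q3, q4, q5, q6⟩ := S F hz2 θb hs hf Q Sa S'
    (Finset.disjoint_left.2 fun w hw hw2 => hdis hw
      (Finset.mem_union_left _ (Finset.mem_union_right _ hw2)))
    (fun v hv => hd v (by rwa [Finset.union_comm] at hv))
    (fun v hv => (above_mul (hnot v (by rwa [Finset.union_comm] at hv))).2)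
    (by rw [hSac]; exact Nat.lt_succ_self _)
  refine ⟨θ, s, q1, q2, q3, q4, q5, fun w hw => ?_⟩
  refine q6 w (fun h6 => hw (h2 (Finset.mem_union_right _ h6))) ?_
  intro h6
  refine hw (h1 (Finset.mem_union_right _ ((hSl w).2 ?_)))
  show (((mb * l : ℕ)) : 𝓞 F) ∈ w.asIdeal
  rw [Nat.cast_mul]
  exact Ideal.mul_mem_left _ _ h6

/-- one step -/
theorem fth1_step (hst : STP) {p l N : ℕ} (hp : p.Prime) {M Mb : Type} [Group M] [Finite M]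
    [Group Mb] {π : M →* Mb} (S : STEP l π) (D : Subgroup M) [D.Normal] (Db : Subgroup Mb)
    [Db.Normal] (hDb : Db = D.map π) (hD : π.ker ≤ D) (c : CL p N M) (cb : CL p N Mb)
    (hcb : ∀ i, cb.g i = π (c.g i))
    (hty : l ≠ p ∨ ∀ i, ∃ x ∈ π.ker, c.g i * x * (c.g i)⁻¹ ≠ x) (h : FTH1 Db cb) :
    FTH1 D c := by
  refine fth1_lift S.prime.pos (lft_step hst S) S.sur D Db hDb hD c cb hcb ?_ h
  intro i y hy hyc
  refine typ S hp (c.pow i) hy ?_ hyc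
  rcases hty with h7 | h7
  · exact Or.inl h7
  · exact Or.inr (h7 i)

/-- `LF1` for all numbers of places up to `k` -/
theorem lf1_le {G Gb : Type} [Group G] [Group Gb] {π : G →* Gb} {s : Gb →* G} (S : LF1 π s)
    (k : ℕ) : ∃ K₀ : IntermediateField ℚ QBar, NumberField K₀ ∧
    ∀ K : IntermediateField ℚ QBar, ∀ _ : NumberField K, K₀ ≤ K →
      ∀ φ : Gal(QBar/K) →* Gb, Function.Surjective φ → FT φ → ∀ (Q : DP K QBar) (S' : Finset (Pl K)),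
        S'.card ≤ k → (∀ v ∈ S', ¬ Above (Nat.card π.ker) v) →
        (∀ v ∈ S', ∀ σ ∈ dec (K := K) (Q.P v), φ σ = 1) →
        ∃ φ' : Gal(QBar/K) →* G, FT φ' ∧ Function.Surjective φ' ∧ (∀ σ, π (φ' σ) = φ σ) ∧
          (∀ v ∈ S', ∀ σ ∈ dec (K := K) (Q.P v), φ' σ = 1) ∧
          ∀ v, ¬ Above (Nat.card π.ker) v → ∃ m ∈ π.ker, ∀ τ ∈ (Q.P v).inertia Gal(QBar/K),
            φ' τ = m * s (φ τ) * m⁻¹ := by
  induction k with
  | zero =>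
    obtain ⟨K₀, hK₀, h⟩ := S 0
    refine ⟨K₀, hK₀, fun K hK hle φ hs hf Q S' hc hn hd => ?_⟩
    exact h K hK hle φ hs hf Q S' (Nat.le_zero.1 hc) hn hd
  | succ k ih =>
    obtain ⟨K₁, hK₁, h1⟩ := ih
    obtain ⟨K₂, hK₂, h2⟩ := S (k + 1)
    have hK₁' : FiniteDimensional ℚ K₁ := hK₁.to_finiteDimensional
    have hK₂' : FiniteDimensional ℚ K₂ := hK₂.to_finiteDimensional
    have hfd' : FiniteDimensional ℚ ↥(K₁ ⊔ K₂) := IntermediateField.finiteDimensional_sup K₁ K₂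
    refine ⟨K₁ ⊔ K₂, NumberField.of_module_finite ℚ _, fun K hK hle φ hs hf Q S' hc hn hd => ?_⟩
    rcases Nat.lt_or_ge k S'.card with h3 | h3
    · exact h2 K hK (le_trans le_sup_right hle) φ hs hf Q S' (le_antisymm hc h3) hn hd
    · exact h1 K hK (le_trans le_sup_left hle) φ hs hf Q S' h3 hn hd

/-- the step `LF1` -/
theorem fth1_lf1 {p N : ℕ} {M Mb : Type} [Group M] [Finite M]
    [Group Mb] {π : M →* Mb} {s : Mb →* M} (hsec : ∀ x, π (s x) = x) (S : LF1 π s)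
    (hsur : Function.Surjective π) (D : Subgroup M)
    [D.Normal] (Db : Subgroup Mb) [Db.Normal] (hDb : Db = D.map π) (hD : π.ker ≤ D)
    (c : CL p N M) (cb : CL p N Mb) (hcb : ∀ i, cb.g i = π (c.g i))
    (hty : ∀ i y, y ^ p = 1 → IsConj (π y) (π (c.g i)) → IsConj y (c.g i)) (h : FTH1 Db cb) :
    FTH1 D c := by
  intro k
  have hl0 : 0 < Nat.card π.ker := Nat.card_pos
  obtain ⟨l, hl⟩ : ∃ l, l = Nat.card π.ker := ⟨_, rfl⟩
  obtain ⟨mb, hmb, K₁, hK₁, h⟩ := h k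
  obtain ⟨K₂, hK₂, h2⟩ := lf1_le S k
  have hK₁' : FiniteDimensional ℚ K₁ := hK₁.to_finiteDimensional
  have hK₂' : FiniteDimensional ℚ K₂ := hK₂.to_finiteDimensional
  have hfd' : FiniteDimensional ℚ ↥(K₁ ⊔ K₂) := IntermediateField.finiteDimensional_sup K₁ K₂
  rw [← hl] at hl0 h2
  refine ⟨mb * l, Nat.mul_pos hmb hl0, K₁ ⊔ K₂, NumberField.of_module_finite ℚ _, ?_⟩
  rintro F hF hKF ⟨z, hz⟩ Θ hΘ hft Q S₁ S' hk hS' hal
  obtain ⟨pm, hpms, hpm2⟩ := dm_map hsur D Db hDb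
  obtain ⟨Θb, hΘb⟩ : ∃ Θb : Gal(QBar/F) →* DM Db, Θb = pm.comp Θ := ⟨_, rfl⟩
  obtain ⟨Sl, hSl⟩ : ∃ Sl : Finset (Pl F), ∀ w, w ∈ Sl ↔ Above l w :=
    ⟨(above_fin hl0).toFinset, fun w => by rw [Set.Finite.mem_toFinset]; rfl⟩
  have hz1 : ∃ z : F, IsPrimitiveRoot z mb :=
    ⟨z ^ l, hz.pow (Nat.mul_pos hmb hl0) (Nat.mul_comm _ _)⟩
  obtain ⟨S0, h4, h5, h3⟩ := h F hF (le_trans le_sup_left hKF) hz1 Θb
    (by rw [hΘb]; exact hpms.comp hΘ)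
    (by rw [hΘb]; exact ft_comp _ _ hft) Q (S₁ ∪ Sl) S' hk
    (fun w hw σ hσ => by rw [hΘb, MonoidHom.comp_apply, hS' w hw σ hσ, map_one])
    (fun w hw => (above_mul (hal w hw)).1)
  refine ⟨S0, Finset.union_subset_left h4, h5, ?_⟩
  intro b β bl SK hb1 hb2 hb3
  obtain ⟨C, Y₀, hC, h6⟩ := h3 b β bl SK hb1 hb2 hb3
  refine ⟨C, Y₀, hC, fun Y hY => ?_⟩
  refine fam_lift D Db hDb hD c cb hcb hty (fun σ => ?_) (fun θb hs hf hd => ?_) (h6 Y hY)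
  · rw [hΘb]
    exact (hpm2 _).symm
  obtain ⟨θ, q2, q3, q4, q5, q6⟩ := h2 F hF (le_trans le_sup_right hKF) θb hs hf Q S' hk
    (fun w hw => (above_mul (hal w hw)).2) hd
  exact ⟨θ, s, hsec, q2, q3, q4, q5, fun w hw => q6 w fun h7 =>
    hw (h4 (Finset.mem_union_right _ ((hSl w).2 h7)))⟩

end H88.L1
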